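import Mathlib

/-!
# The double Zarankiewicz number is of quadratic order

Split the rows and the columns of the grid into two halves, and pair each cell of the upper left
block with the corresponding cell of the lower right block. This gives `⌊m/2⌋ ⌊n/2⌋` 2-edges. The two
columns of each 2-edge have no common occupied row, so there is no generalized `C_4`-cycle.
-/

set_option autoImplicit false

namespace Pool.Agent.Results.MP_af8792_co.QuadraticLower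

/-- A cell of the `m × n` grid. -/
abbrev Cell (m n : ℕ) : Type := Fin m × Fin n

/-- A cell is occupied if it is a 1-edge or one of the two cells of a 2-edge. -/
def Occupied {m n : ℕ} (E₁ : Finset (Cell m n)) (E₂ : Finset (Cell m n × Cell m n))
    (c : Cell m n) : Prop :=
  c ∈ E₁ ∨ ∃ e ∈ E₂, c = e.1 ∨ c = e.2

/-- A configuration: the two cells of a 2-edge are in different rows and in different columns, and no
cell is occupied by two different edges. -/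
def IsConfiguration {m n : ℕ} (E₁ : Finset (Cell m n)) (E₂ : Finset (Cell m n × Cell m n)) : Prop :=
  (∀ e ∈ E₂, e.1.1 ≠ e.2.1 ∧ e.1.2 ≠ e.2.2) ∧
  (∀ c ∈ E₁, ∀ e ∈ E₂, c ≠ e.1 ∧ c ≠ e.2) ∧
  (∀ e ∈ E₂, ∀ f ∈ E₂, e ≠ f → e.1 ≠ f.1 ∧ e.1 ≠ f.2 ∧ e.2 ≠ f.1 ∧ e.2 ≠ f.2)

/-- The three kinds of generalized `C_4`-cycles. -/
def HasGeneralizedC4 {m n : ℕ} (E₁ : Finset (Cell m n)) (E₂ : Finset (Cell m n × Cell m n)) :
    Prop :=
  (∃ (i k : Fin m) (j l : Fin n), i ≠ k ∧ j ≠ l ∧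
    (i, j) ∈ E₁ ∧ (i, l) ∈ E₁ ∧ (k, j) ∈ E₁ ∧ (k, l) ∈ E₁) ∨
  (∃ (i k : Fin m) (j l : Fin n), ((i, j), (k, l)) ∈ E₂ ∧
    Occupied E₁ E₂ (i, l) ∧ Occupied E₁ E₂ (k, j)) ∨
  (∃ (i p k : Fin m) (j q l : Fin n), ((i, j), (p, q)) ∈ E₂ ∧
    [(k, l), (k, j), (k, q), (i, l), (p, l)].Nodup ∧
    ∀ c ∈ [(k, l), (k, j), (k, q), (i, l), (p, l)], Occupied E₁ E₂ c)

/-- The double Zarankiewicz number `z₂(m, n)`. -/
noncomputable def z₂ (m n : ℕ) : ℕ :=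
  sSup {s : ℕ | ∃ (E₁ : Finset (Cell m n)) (E₂ : Finset (Cell m n × Cell m n)),
    IsConfiguration E₁ E₂ ∧ ¬ HasGeneralizedC4 E₁ E₂ ∧ s = E₁.card + E₂.card}

/-- The pair of cells `(a, b)`, `(a + ⌊m/2⌋, b + ⌊n/2⌋)`. -/
def pairCell (m n : ℕ) (x : Fin (m / 2) × Fin (n / 2)) : Cell m n × Cell m n :=
  ((⟨x.1.1, by have := x.1.2; omega⟩, ⟨x.2.1, by have := x.2.2; omega⟩),
   (⟨x.1.1 + m / 2, by have := x.1.2; omega⟩, ⟨x.2.1 + n / 2, by have := x.2.2; omega⟩))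

theorem pairCell_injective (m n : ℕ) : Function.Injective (pairCell m n) := by
  rintro ⟨⟨a, ha⟩, ⟨b, hb⟩⟩ ⟨⟨c, hc⟩, ⟨d, hd⟩⟩ h
  simp only [pairCell, Prod.mk.injEq, Fin.mk.injEq] at h
  obtain ⟨⟨rfl, rfl⟩, -⟩ := h
  rfl

/-- The 2-edges of the construction. -/
def edges (m n : ℕ) : Finset (Cell m n × Cell m n) :=
  Finset.univ.image (pairCell m n)

theorem card_edges (m n : ℕ) : (edges m n).card = (m / 2) * (n / 2) := by
  rw [edges, Finset.card_image_of_injective _ (pairCell_injective m n)]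
  simp

theorem mem_edges {m n : ℕ} {e : Cell m n × Cell m n} (he : e ∈ edges m n) :
    e.1.1.1 < m / 2 ∧ e.1.2.1 < n / 2 ∧ e.2.1.1 = e.1.1.1 + m / 2 ∧ e.2.2.1 = e.1.2.1 + n / 2 := by
  obtain ⟨⟨⟨a, ha⟩, ⟨b, hb⟩⟩, -, rfl⟩ := Finset.mem_image.1 he
  exact ⟨ha, hb, rfl, rfl⟩

theorem occupied {m n : ℕ} {c : Cell m n} (hc : Occupied ∅ (edges m n) c) :
    (c.1.1 < m / 2 ↔ c.2.1 < n / 2) := by
  rcases hc with hc | ⟨e, he, rfl | rfl⟩
  · simp at hc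
  · obtain ⟨h1, h2, -, -⟩ := mem_edges he
    exact ⟨fun _ => h2, fun _ => h1⟩
  · obtain ⟨h1, h2, h3, h4⟩ := mem_edges he
    omega

theorem isConfiguration (m n : ℕ) : IsConfiguration (∅ : Finset (Cell m n)) (edges m n) := by
  refine ⟨?_, ?_, ?_⟩
  · intro e he
    obtain ⟨h1, h2, h3, h4⟩ := mem_edges he
    constructor
    · intro h
      have := congrArg Fin.val h
      omega
    · intro h
      have := congrArg Fin.val h
      omega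
  · intro c hc
    simp at hc
  · intro e he f hf hef
    obtain ⟨h1, h2, h3, h4⟩ := mem_edges he
    obtain ⟨g1, g2, g3, g4⟩ := mem_edges hf
    obtain ⟨⟨⟨a, ha⟩, ⟨b, hb⟩⟩, -, rfl⟩ := Finset.mem_image.1 he
    obtain ⟨⟨⟨c, hc⟩, ⟨d, hd⟩⟩, -, rfl⟩ := Finset.mem_image.1 hf
    have key : ¬ (a = c ∧ b = d) := by
      rintro ⟨rfl, rfl⟩
      exact hef rfl
    simp only [pairCell, ne_eq, Prod.mk.injEq, Fin.mk.injEq] at *
    refine ⟨key, ?_, ?_, ?_⟩ <;> omega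

theorem not_hasGeneralizedC4 (m n : ℕ) :
    ¬ HasGeneralizedC4 (∅ : Finset (Cell m n)) (edges m n) := by
  rintro (⟨i, k, j, l, -, -, h, -⟩ | ⟨i, k, j, l, he, h1, -⟩ | ⟨i, p, k, j, q, l, he, -, h⟩)
  · simp at h
  · obtain ⟨a1, a2, a3, a4⟩ := mem_edges he
    have := occupied h1
    simp only at a1 a2 a3 a4 this
    omega
  · obtain ⟨a1, a2, a3, a4⟩ := mem_edges he
    have h1 := occupied (h (k, j) (by simp))
    have h2 := occupied (h (k, q) (by simp))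
    simp only at a1 a2 a3 a4 h1 h2
    omega

theorem bddAbove (m n : ℕ) :
    BddAbove {s : ℕ | ∃ (E₁ : Finset (Cell m n)) (E₂ : Finset (Cell m n × Cell m n)),
      IsConfiguration E₁ E₂ ∧ ¬ HasGeneralizedC4 E₁ E₂ ∧ s = E₁.card + E₂.card} := by
  refine ⟨Fintype.card (Cell m n) + Fintype.card (Cell m n × Cell m n), ?_⟩
  rintro s ⟨E₁, E₂, -, -, rfl⟩
  exact Nat.add_le_add (Finset.card_le_univ _) (Finset.card_le_univ _)

/-- `z₂(m, n) ≥ ⌊m/2⌋ ⌊n/2⌋` for all `m, n ≥ 2`; so there is no constant `C` such that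
`z₂(m, n) ≤ C (m √n + n)` for all `m, n ≥ 2`. -/
theorem result :
    (∀ m n : ℕ, 2 ≤ m → 2 ≤ n → (m / 2) * (n / 2) ≤ z₂ m n) ∧
    ¬ ∃ C : ℝ, ∀ m n : ℕ, 2 ≤ m → 2 ≤ n → (z₂ m n : ℝ) ≤ C * ((m : ℝ) * √(n : ℝ) + (n : ℝ)) := by
  have main : ∀ m n : ℕ, (m / 2) * (n / 2) ≤ z₂ m n := by
    intro m n
    refine le_csSup (bddAbove m n) ⟨∅, edges m n, isConfiguration m n, not_hasGeneralizedC4 m n, ?_⟩
    rw [card_edges, Finset.card_empty, zero_add]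
  refine ⟨fun m n _ _ => main m n, ?_⟩
  rintro ⟨C, hC⟩
  -- take `m = n = 4 t ^ 2` with `t` large
  obtain ⟨t, ht⟩ := exists_nat_gt (max C 1 * 4)
  have ht0 : (4 : ℝ) < t := lt_of_le_of_lt (by linarith [le_max_right C 1]) ht
  have ht1 : 4 < t := by exact_mod_cast ht0
  have hCt : C * 4 < t := lt_of_le_of_lt (by linarith [le_max_left C 1]) ht
  have h1 := hC (4 * t ^ 2) (4 * t ^ 2) (by nlinarith) (by nlinarith)
  have h2 : (((4 * t ^ 2) / 2 * ((4 * t ^ 2) / 2) : ℕ) : ℝ) ≤ (z₂ (4 * t ^ 2) (4 * t ^ 2) : ℝ) := by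
    exact_mod_cast main (4 * t ^ 2) (4 * t ^ 2)
  have h3 : (4 * t ^ 2) / 2 = 2 * t ^ 2 := by omega
  rw [h3] at h2
  have h4 : √(((4 * t ^ 2 : ℕ) : ℝ)) = 2 * (t : ℝ) := by
    have : (((4 * t ^ 2 : ℕ) : ℝ)) = (2 * (t : ℝ)) ^ 2 := by push_cast; ring
    rw [this, Real.sqrt_sq (by positivity)]
  rw [h4] at h1
  push_cast at h1 h2
  have h5 : (2 * (t : ℝ) ^ 2) * (2 * (t : ℝ) ^ 2) ≤ C * (4 * (t : ℝ) ^ 2 * (2 * t) + 4 * (t : ℝ) ^ 2) :=
    h2.trans h1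
  have h6 : (t : ℝ) ^ 2 * ((t : ℝ) ^ 2) ≤ (t : ℝ) ^ 2 * (C * (2 * t + 1)) := by nlinarith
  have h7 : (t : ℝ) ^ 2 ≤ C * (2 * t + 1) := le_of_mul_le_mul_left h6 (by positivity)
  have h8 : C * (2 * (t : ℝ) + 1) ≤ (t / 4) * (2 * t + 1) :=
    mul_le_mul_of_nonneg_right (by linarith) (by positivity)
  nlinarith

end Pool.Agent.Results.MP_af8792_co.QuadraticLower
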